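import Mathlib

/-!
# `f_45 < h_45` for the L-hitting numbers of the `2`-`3` grid

The first `45` numbers of the form `2^i 3^j` are those up to `1536`. The set
`{3, 4, 18, 24, 32, 81, 108, 144, 192, 384, 486, 512, 648, 864}` of size `14` meets every triple
`{x, 2x, 3x}` inside them, while `h_45 = 15`.
-/

set_option autoImplicit false

open Finset

namespace Pool.Agent.Results.MP_2eb2b4_co.Counterexample45

/-- Membership in the set `A` of all numbers `2^i 3^j`. -/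
def InA (x : ℕ) : Prop := ∃ i j : ℕ, x = 2 ^ i * 3 ^ j

/-- The set `A_n` of the `n` smallest elements of `A`. -/
noncomputable def A (n : ℕ) : Finset ℕ := (Finset.range n).image (fun k => Nat.nth InA k)

/-- `H ⊆ A_n` meets every L-configuration contained in `A_n`. -/
def Hits (n : ℕ) (H : Finset ℕ) : Prop :=
  H ⊆ A n ∧ ∀ i j : ℕ,
    ({2 ^ i * 3 ^ j, 2 ^ (i + 1) * 3 ^ j, 2 ^ i * 3 ^ (j + 1)} : Finset ℕ) ⊆ A n →
      (({2 ^ i * 3 ^ j, 2 ^ (i + 1) * 3 ^ j, 2 ^ i * 3 ^ (j + 1)} : Finset ℕ) ∩ H).Nonempty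

/-- The L-hitting number `f_n`. -/
noncomputable def f (n : ℕ) : ℕ := sInf {m : ℕ | ∃ H : Finset ℕ, Hits n H ∧ H.card = m}

open Classical in
/-- The class `B_{n,k}`. -/
noncomputable def B (n k : ℕ) : Finset ℕ :=
  (A n).filter (fun x => ∃ i j : ℕ, x = 2 ^ i * 3 ^ j ∧ (i : ℤ) - (j : ℤ) ≡ (k : ℤ) [ZMOD 3])

open Classical in
/-- The set of powers of two removed from `B_{n,k}`. -/
noncomputable def Bt (n k : ℕ) : Finset ℕ :=
  (A n).filter (fun x => ∃ i : ℕ, 1 ≤ i ∧ x = 2 ^ i ∧ i ≡ k [MOD 3] ∧ 2 ^ (i - 1) * 3 ∉ A n)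

/-- The number `h_n`. -/
noncomputable def h (n : ℕ) : ℕ :=
  min ((B n 0).card - (Bt n 0).card)
    (min ((B n 1).card - (Bt n 1).card) ((B n 2).card - (Bt n 2).card))

theorem inA_iff_dvd (x : ℕ) (hx : x < 1537) : InA x ↔ x ∣ 6 ^ 10 := by
  constructor
  · rintro ⟨i, j, rfl⟩
    have hi : i < 11 := by
      by_contra hi
      have h1 : 2 ^ 11 ≤ 2 ^ i := Nat.pow_le_pow_right (by norm_num) (by omega)
      have h2 : 1 ≤ 3 ^ j := Nat.one_le_pow _ _ (by norm_num)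
      nlinarith
    have hj : j < 11 := by
      by_contra hj
      have h1 : 3 ^ 11 ≤ 3 ^ j := Nat.pow_le_pow_right (by norm_num) (by omega)
      have h2 : 1 ≤ 2 ^ i := Nat.one_le_pow _ _ (by norm_num)
      nlinarith
    have : (6 : ℕ) ^ 10 = 2 ^ 10 * 3 ^ 10 := by norm_num
    rw [this]
    exact Nat.mul_dvd_mul (Nat.pow_dvd_pow _ (by omega)) (Nat.pow_dvd_pow _ (by omega))
  · intro h
    have h6 : (6 : ℕ) ^ 10 = 2 ^ 10 * 3 ^ 10 := by norm_num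
    rw [h6, Nat.dvd_mul] at h
    obtain ⟨d1, d2, h1, h2, rfl⟩ := h
    obtain ⟨i, -, rfl⟩ := (Nat.dvd_prime_pow Nat.prime_two).1 h1
    obtain ⟨j, -, rfl⟩ := (Nat.dvd_prime_pow Nat.prime_three).1 h2
    exact ⟨i, j, rfl⟩

theorem inA_infinite : (Set.ofPred InA).Infinite := by
  apply Set.infinite_of_injective_forall_mem (f := fun i : ℕ => 2 ^ i)
  · exact Nat.pow_right_injective (le_refl 2)
  · intro i
    exact ⟨i, 0, by simp⟩

open Classical in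
theorem mem_A (n x : ℕ) : x ∈ A n ↔ InA x ∧ Nat.count InA x < n := by
  rw [A, Finset.mem_image]
  constructor
  · rintro ⟨k, hk, rfl⟩
    refine ⟨Nat.nth_mem_of_infinite inA_infinite k, ?_⟩
    rw [Nat.count_nth_of_infinite inA_infinite]
    exact Finset.mem_range.1 hk
  · rintro ⟨h1, h2⟩
    exact ⟨_, Finset.mem_range.2 h2, Nat.nth_count h1⟩

open Classical in
theorem count_1537 : Nat.count InA 1537 = 45 := by
  rw [Nat.count_eq_card_filter_range]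
  have : (Finset.range 1537).filter InA = (Finset.range 1537).filter (fun x => x ∣ 6 ^ 10) := by
    apply Finset.filter_congr
    intro x hx
    exact inA_iff_dvd x (Finset.mem_range.1 hx)
  rw [this]
  decide +kernel

open Classical in
theorem mem_A45 (x : ℕ) : x ∈ A 45 ↔ InA x ∧ x < 1537 := by
  rw [mem_A, ← count_1537]
  constructor
  · rintro ⟨h1, h2⟩
    refine ⟨h1, ?_⟩
    by_contra h3
    exact absurd (Nat.count_monotone InA (not_lt.1 h3)) (not_le.2 h2)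
  · rintro ⟨h1, h2⟩
    refine ⟨h1, ?_⟩
    exact Nat.count_strict_mono h1 h2

theorem bound_ij (i j : ℕ) (h : 2 ^ i * 3 ^ j < 1537) : i < 11 ∧ j < 7 := by
  constructor
  · by_contra hi
    have h1 : 2 ^ 11 ≤ 2 ^ i := Nat.pow_le_pow_right (by norm_num) (by omega)
    have h2 : 1 ≤ 3 ^ j := Nat.one_le_pow _ _ (by norm_num)
    nlinarith
  · by_contra hj
    have h1 : 3 ^ 7 ≤ 3 ^ j := Nat.pow_le_pow_right (by norm_num) (by omega)
    have h2 : 1 ≤ 2 ^ i := Nat.one_le_pow _ _ (by norm_num)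
    nlinarith

/-- The hitting set of size `14`. -/
def H14 : Finset ℕ := {3, 4, 18, 24, 32, 81, 108, 144, 192, 384, 486, 512, 648, 864}

theorem H14_sub : ∀ x ∈ H14, x < 1537 ∧ x ∣ 6 ^ 10 := by
  decide +kernel

theorem H14_hits : ∀ i < 11, ∀ j < 7, 2 ^ i * 3 ^ (j + 1) < 1537 →
    (2 ^ i * 3 ^ j ∈ H14 ∨ 2 ^ (i + 1) * 3 ^ j ∈ H14 ∨ 2 ^ i * 3 ^ (j + 1) ∈ H14) := by
  decide +kernel

theorem hits14 : Hits 45 H14 := by
  refine ⟨?_, ?_⟩
  · intro x hx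
    obtain ⟨h1, h2⟩ := H14_sub x hx
    exact (mem_A45 x).2 ⟨(inA_iff_dvd x h1).2 h2, h1⟩
  · intro i j hsub
    have h3 : 2 ^ i * 3 ^ (j + 1) ∈ A 45 := hsub (by simp)
    have h4 := ((mem_A45 _).1 h3).2
    obtain ⟨hi, hj⟩ := bound_ij _ _ h4
    rcases H14_hits i hi j (by omega) h4 with h | h | h
    · exact ⟨_, Finset.mem_inter.2 ⟨by simp, h⟩⟩
    · exact ⟨_, Finset.mem_inter.2 ⟨by simp, h⟩⟩
    · exact ⟨_, Finset.mem_inter.2 ⟨by simp, h⟩⟩

theorem f45_le : f 45 ≤ 14 :=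
  Nat.sInf_le ⟨H14, hits14, by decide⟩

open Classical in
theorem mem_B (n k x : ℕ) : x ∈ B n k ↔ x ∈ A n ∧
    ∃ i j : ℕ, x = 2 ^ i * 3 ^ j ∧ (i : ℤ) - (j : ℤ) ≡ (k : ℤ) [ZMOD 3] := by
  rw [B, Finset.mem_filter]

open Classical in
theorem mem_Bt (n k x : ℕ) : x ∈ Bt n k ↔ x ∈ A n ∧
    ∃ i : ℕ, 1 ≤ i ∧ x = 2 ^ i ∧ i ≡ k [MOD 3] ∧ 2 ^ (i - 1) * 3 ∉ A n := by
  rw [Bt, Finset.mem_filter]

theorem B_eq (k : ℕ) (hk : k < 3) : B 45 k =
    ((Finset.range 11 ×ˢ Finset.range 7).filter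
      (fun p => 2 ^ p.1 * 3 ^ p.2 < 1537 ∧ p.1 % 3 = (p.2 + k) % 3)).image
      (fun p => 2 ^ p.1 * 3 ^ p.2) := by
  ext x
  rw [mem_B, Finset.mem_image]
  constructor
  · rintro ⟨h1, i, j, rfl, h2⟩
    have h3 := ((mem_A45 _).1 h1).2
    obtain ⟨hi, hj⟩ := bound_ij _ _ h3
    refine ⟨(i, j), ?_, rfl⟩
    rw [Finset.mem_filter, Finset.mem_product]
    refine ⟨⟨Finset.mem_range.2 hi, Finset.mem_range.2 hj⟩, h3, ?_⟩
    unfold Int.ModEq at h2
    omega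
  · rintro ⟨⟨i, j⟩, h1, rfl⟩
    rw [Finset.mem_filter] at h1
    refine ⟨(mem_A45 _).2 ⟨⟨i, j, rfl⟩, h1.2.1⟩, i, j, rfl, ?_⟩
    have h3 := h1.2.2
    unfold Int.ModEq
    simp only at h3
    omega

theorem B_card (k : ℕ) (hk : k < 3) : (B 45 k).card = 15 := by
  rw [B_eq k hk]
  interval_cases k <;> decide +kernel

theorem Bt_card (k : ℕ) : (Bt 45 k).card = 0 := by
  rw [Finset.card_eq_zero, Finset.eq_empty_iff_forall_notMem]
  intro x hx'
  obtain ⟨hx, i, hi, rfl, -, h2⟩ := (mem_Bt _ _ _).1 hx'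
  apply h2
  have h3 := ((mem_A45 _).1 hx).2
  have hi2 : i < 11 := (bound_ij i 0 (by simpa using h3)).1
  rw [mem_A45]
  refine ⟨⟨i - 1, 1, by simp⟩, ?_⟩
  have h4 : 2 ^ (i - 1) ≤ 2 ^ 9 := Nat.pow_le_pow_right (by norm_num) (by omega)
  omega

theorem h45 : h 45 = 15 := by
  rw [h, B_card 0 (by norm_num), B_card 1 (by norm_num), B_card 2 (by norm_num), Bt_card, Bt_card,
    Bt_card]
  rfl

/-- The equality `f_n = h_n` fails for `n = 45`: one has `f_45 ≤ 14` and `h_45 = 15`. -/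
theorem result : f 45 ≤ 14 ∧ h 45 = 15 ∧ ¬ ∀ n : ℕ, 1 ≤ n → f n = h n := by
  refine ⟨f45_le, h45, fun hall => ?_⟩
  have h1 := hall 45 (by norm_num)
  have h2 := f45_le
  have h3 := h45
  omega

end Pool.Agent.Results.MP_2eb2b4_co.Counterexample45
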